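import Pool.Agent.Helper8_CR.Stmts

/-!
# Module CELL: the class of the jets `(γ, u, v)`
-/

set_option autoImplicit false
set_option linter.unusedVariables false
set_option linter.unusedSectionVars false

namespace Pool.Agent.Helper8_CR.H68

open Pool.Agent.Helper6_Mono Pool.Agent.Helper8_CR PowerSeries

/-! ## Power series -/

section alg

variable {S : Type} [CommRing S]

/-- division by `t ^ a` -/
noncomputable def dvX (a : ℕ) (F : PowerSeries S) : PowerSeries S :=
  PowerSeries.mk fun j => coeff (j + a) F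

theorem dvX_spec {a : ℕ} {F : PowerSeries S} (h : ∀ j, j < a → coeff j F = 0) :
    F = PowerSeries.X ^ a * dvX a F := by
  ext j
  rw [coeff_X_pow_mul']
  split_ifs with hj
  · rw [dvX, coeff_mk, Nat.sub_add_cancel hj]
  · exact h j (by omega)

theorem dvX_zero (a : ℕ) (F : PowerSeries S) : coeff 0 (dvX a F) = coeff a F := by
  rw [dvX, coeff_mk, zero_add]

/-- solving `A V = G` modulo `t ^ (m + 1)` -/
theorem cell_ex {A G : PowerSeries S} {a m : ℕ} (ham : a ≤ m)
    (hA : ∀ j, j < a → coeff j A = 0) (hu : IsUnit (coeff a A))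
    (hG : ∀ j, j ≤ a → coeff j G = 0) :
    ∃ V : PowerSeries S, coeff 0 V = 0 ∧ (∀ c, m - a < c → coeff c V = 0) ∧
      ∀ j, j ≤ m → coeff j (A * V) = coeff j G := by
  have hU : IsUnit (dvX a A) := isUnit_series (by rw [dvX_zero]; exact hu)
  have hG0 : coeff 0 (dvX a G) = 0 := by rw [dvX_zero]; exact hG a le_rfl
  have hA' := dvX_spec hA
  have hG' := dvX_spec (F := G) (a := a) fun j hj => hG j hj.le
  generalize dvX a A = U at hA' hU
  generalize dvX a G = H at hG' hG0
  subst hA' hG'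
  refine ⟨lowS (m - a) (Ring.inverse U * H), ?_, ?_, ?_⟩
  · rw [coeff_lowS, if_pos (Nat.zero_le _), coeff_zero_mul, hG0, mul_zero]
  · intro c hc
    rw [coeff_lowS, if_neg (by omega)]
  · intro j hj
    rw [mul_assoc, coeff_X_pow_mul', coeff_X_pow_mul']
    split_ifs with h
    · rw [coeff_mul_congr (V' := Ring.inverse U * H) (e := m - a)
        (fun i hi => by rw [coeff_lowS, if_pos hi]) (by omega), ← mul_assoc,
        Ring.mul_inverse_cancel _ hU, one_mul]
    · rfl

/-- uniqueness -/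
theorem cell_uniq {A D : PowerSeries S} {a m : ℕ} 
    (hA : ∀ j, j < a → coeff j A = 0) (hu : IsUnit (coeff a A))
    (h : ∀ j, j ≤ m → coeff j (A * D) = 0) (c : ℕ) (hc : c + a ≤ m) : coeff c D = 0 := by
  have hU : IsUnit (dvX a A) := isUnit_series (by rw [dvX_zero]; exact hu)
  have h1 : D = Ring.inverse (dvX a A) * (dvX a A * D) := by
    rw [← mul_assoc, Ring.inverse_mul_cancel _ hU, one_mul]
  rw [h1, coeff_mul_congr (V' := 0) (e := m - a) (fun i hi => ?_) (by omega), mul_zero, map_zero]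
  have h2 := h (i + a) (by omega)
  rw [dvX_spec hA, mul_assoc, coeff_X_pow_mul', if_pos (by omega), Nat.add_sub_cancel] at h2
  rw [h2, map_zero]

/-- a product of series of order at least `a` and `1` -/
theorem coeff_mul_ord {A B : PowerSeries S} {a : ℕ} (hA : ∀ j, j < a → coeff j A = 0)
    (hB : coeff 0 B = 0) {j : ℕ} (hj : j ≤ a) : coeff j (A * B) = 0 := by
  rw [coeff_mul]
  refine Finset.sum_eq_zero fun p hp => ?_
  have h := Finset.HasAntidiagonal.mem_antidiagonal.1 hp
  by_cases h1 : p.1 < a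
  · rw [hA _ h1, zero_mul]
  · have : p.2 = 0 := by omega
    rw [this, hB, mul_zero]

open scoped Classical in
/-- truncation of a family of series -/
noncomputable def trD {ι : Type} (D : Set (ι × ℕ)) (w : ι → PowerSeries S) (i : ι) :
    PowerSeries S := PowerSeries.mk fun j => if (i, j) ∈ D then coeff j (w i) else 0

open scoped Classical in
theorem coeff_trD {ι : Type} (D : Set (ι × ℕ)) (w : ι → PowerSeries S) (i : ι) (j : ℕ) :
    coeff j (trD D w i) = if (i, j) ∈ D then coeff j (w i) else 0 := by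
  rw [trD, coeff_mk]

theorem twS_trD {k : Type} [Field k] {W : Type} [AddCommGroup W] {S' : Type} [CommRing S']
    [Algebra k S] [Algebra k S'] (ω : W) (φ : S →ₐ[k] S') (c : Chr W S') {ι : Type}
    (D : Set (ι × ℕ)) (w : ι → PowerSeries S) (i : ι) :
    twS ω φ c (trD D w i) = trD D (fun i => twS ω φ c (w i)) i := by
  classical
  ext j
  rw [coeff_twS, coeff_trD, coeff_trD, coeff_twS]
  split_ifs
  · rfl
  · rw [map_zero, mul_zero]

end alg

/-! ## The index set -/

/-- the free coefficients on the stratum `(a, i)` -/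
def Dp (r m a : ℕ) (i : Fin (r + 1)) : Set ((Fin (r + 1) ⊕ Fin (r + 1)) × ℕ) :=
  {p | Sum.elim (fun i' => (a < p.2 ∧ p.2 ≤ m) ∨ (p.2 = a ∧ i < i'))
    (fun i' => (1 ≤ p.2 ∧ p.2 ≤ m ∧ i' ≠ i) ∨ (i' = i ∧ m - a < p.2 ∧ p.2 ≤ m)) p.1}

theorem mem_Dp_inl {r m a : ℕ} {i i' : Fin (r + 1)} {c : ℕ} :
    (Sum.inl i', c) ∈ Dp r m a i ↔ (a < c ∧ c ≤ m) ∨ (c = a ∧ i < i') := Iff.rfl

theorem mem_Dp_inr {r m a : ℕ} {i i' : Fin (r + 1)} {c : ℕ} :
    (Sum.inr i', c) ∈ Dp r m a i ↔ (1 ≤ c ∧ c ≤ m ∧ i' ≠ i) ∨ (i' = i ∧ m - a < c ∧ c ≤ m) :=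
  Iff.rfl

theorem Dp_finite (r m a : ℕ) (i : Fin (r + 1)) (ham : a ≤ m) : (Dp r m a i).Finite := by
  refine (Set.finite_univ.prod (Set.finite_Iic m)).subset fun p hp => ⟨trivial, ?_⟩
  obtain ⟨q, c⟩ := p
  show c ≤ m
  cases q with
  | inl i' => rcases mem_Dp_inl.1 hp with h | h <;> omega
  | inr i' => rcases mem_Dp_inr.1 hp with h | h <;> omega

theorem Dp_ncard (r m a : ℕ) (i : Fin (r + 1)) (h1 : 1 ≤ a) (ham : a ≤ m) :
    (Dp r m a i).ncard = (r + 1) * m + r * (m - a) + (r - i) := by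
  classical
  let E1 : Finset ((Fin (r + 1) ⊕ Fin (r + 1)) × ℕ) :=
    ((Finset.univ : Finset (Fin (r + 1))) ×ˢ Finset.Ioc a m).image fun p => (Sum.inl p.1, p.2)
  let E2 : Finset ((Fin (r + 1) ⊕ Fin (r + 1)) × ℕ) :=
    (Finset.Ioi i).image fun i' => (Sum.inl i', a)
  let E3 : Finset ((Fin (r + 1) ⊕ Fin (r + 1)) × ℕ) :=
    ((Finset.univ.erase i) ×ˢ Finset.Icc 1 m).image fun p => (Sum.inr p.1, p.2)
  let E4 : Finset ((Fin (r + 1) ⊕ Fin (r + 1)) × ℕ) :=
    (Finset.Ioc (m - a) m).image fun c => (Sum.inr i, c)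
  have hE : Dp r m a i = ((E1 ∪ E2 ∪ (E3 ∪ E4) : Finset _) : Set _) := by
    ext ⟨q, c⟩
    cases q with
    | inl i' =>
      rw [mem_Dp_inl]
      simp [E1, E2, E3, E4]
      constructor
      · rintro (h | ⟨h, h'⟩)
        · exact Or.inl h
        · exact Or.inr ⟨h', h.symm⟩
      · rintro (h | ⟨h, h'⟩)
        · exact Or.inl h
        · exact Or.inr ⟨h'.symm, h⟩
    | inr i' =>
      rw [mem_Dp_inr]
      simp [E1, E2, E3, E4]
      constructor
      · rintro (⟨h, h', h''⟩ | ⟨h, h', h''⟩)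
        · exact Or.inl ⟨h'', h, h'⟩
        · exact Or.inr ⟨⟨h', h''⟩, h.symm⟩
      · rintro (⟨h, h', h''⟩ | ⟨⟨h, h'⟩, h''⟩)
        · exact Or.inl ⟨h', h'', h⟩
        · exact Or.inr ⟨h''.symm, h, h'⟩
  have d12 : Disjoint E1 E2 := by
    rw [Finset.disjoint_left]
    rintro ⟨q, c⟩ h h'
    simp [E1, E2] at h h'
    obtain ⟨h, -⟩ := h
    obtain ⟨i', -, -, h'⟩ := h'
    omega
  have d34 : Disjoint E3 E4 := by
    rw [Finset.disjoint_left]
    rintro ⟨q, c⟩ h h'
    simp [E3, E4] at h h'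
    obtain ⟨i', ⟨h, -⟩, h2⟩ := h
    obtain ⟨-, h3⟩ := h'
    rw [← h3] at h2
    exact h (Sum.inr_injective h2)
  have d : Disjoint (E1 ∪ E2) (E3 ∪ E4) := by
    rw [Finset.disjoint_left]
    rintro ⟨q, c⟩ h h'
    cases q with
    | inl i' => simp [E3, E4] at h'
    | inr i' => simp [E1, E2] at h
  have c1 : E1.card = (r + 1) * (m - a) := by
    rw [Finset.card_image_of_injective _ (by
      rintro ⟨x, y⟩ ⟨x', y'⟩ h
      simpa using h), Finset.card_product, Finset.card_univ, Fintype.card_fin, Nat.card_Ioc]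
  have c2 : E2.card = r - i := by
    rw [Finset.card_image_of_injective _ (by
      intro x y h
      simpa using h), Fin.card_Ioi]
    omega
  have c3 : E3.card = r * m := by
    rw [Finset.card_image_of_injective _ (by
      rintro ⟨x, y⟩ ⟨x', y'⟩ h
      simpa using h), Finset.card_product, Finset.card_erase_of_mem (Finset.mem_univ _),
      Finset.card_univ, Fintype.card_fin, Nat.card_Icc]
    simp
  have c4 : E4.card = a := by
    rw [Finset.card_image_of_injective _ (by
      intro x y h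
      simpa using h), Nat.card_Ioc]
    omega
  rw [hE, Set.ncard_coe_finset, Finset.card_union_of_disjoint d, Finset.card_union_of_disjoint d12,
    Finset.card_union_of_disjoint d34, c1, c2, c3, c4]
  obtain ⟨b, rfl⟩ := Nat.exists_eq_add_of_le ham
  rw [Nat.add_sub_cancel_left]
  ring

/-! ## The strata -/

section strat

variable {k : Type} [Field k] {σ : Type} [Finite σ]

theorem FT_JY (f : MvPolynomial σ k) (m a : ℕ) (ω : QZ) (hω : m • ω = 0) :
    FT (JY f m a ω hω).F := by
  refine FT.closed (FT.jet _ Set.finite_univ _ _)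
    (fun φ c x hx => ((JY f m a ω hω).F.tw φ c ⟨x, hx⟩).2) (A := Fin (a + 1))
    (w := fun j => (j : ℕ) • ω)
    (fun j => ⟨fun γ => jf f γ.1 j - if (j : ℕ) = m then 1 else 0, fun φ c γ => ?_⟩)
    (fun S _ _ x => ?_)
  · show jf f (fun i => twS ω φ c (γ.1 i)) j - (if (j : ℕ) = m then 1 else 0) = _
    rw [jf_tw, one_tw hω φ c (j : ℕ), map_sub, mul_sub]
  · constructor
    · intro h j
      show jf f x.1 j - (if (j : ℕ) = m then 1 else 0) = 0
      rw [h j (Nat.lt_succ_iff.1 j.2), sub_self]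
    · intro h j hj
      exact sub_eq_zero.1 (h ⟨j, Nat.lt_succ_of_le hj⟩)

theorem Dm_finite (r m : ℕ) : (Dm r m).Finite :=
  (Set.finite_univ.prod (Set.finite_Iic m)).subset fun p hp => ⟨trivial, hp.2⟩

theorem FT_JS (f : MvPolynomial σ k) (r m : ℕ) (ω : QZ) (hω : m • ω = 0) :
    FT (JS f r m ω hω).F := by
  refine FT.closed ((FT.jet _ Set.finite_univ _ _).prod (FT.sup (Dm_finite r m) ω))
    (fun φ c x hx => ((JS f r m ω hω).F.tw φ c ⟨x, hx⟩).2) (A := Fin (m + 1)) (w := fun j => (j : ℕ) • ω)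
    (fun j => ⟨fun p => coeff (j : ℕ) (fuv f p.1.1 p.2.1) - if (j : ℕ) = m then 1 else 0,
      fun φ c p => ?_⟩)
    (fun S _ _ x => ?_)
  · show coeff (j : ℕ) (fuv f (fun i => twS ω φ c (p.1.1 i)) (fun i => twS ω φ c (p.2.1 i)))
      - (if (j : ℕ) = m then 1 else 0) = _
    rw [fuv_tw, coeff_twS, one_tw hω φ c (j : ℕ), map_sub, mul_sub]
  · constructor
    · intro h j
      show coeff (j : ℕ) (fuv f x.1.1 x.2.1) - (if (j : ℕ) = m then 1 else 0) = 0
      rw [h j (Nat.lt_succ_iff.1 j.2), sub_self]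
    · intro h j hj
      exact sub_eq_zero.1 (h ⟨j, Nat.lt_succ_of_le hj⟩)

/-- the coefficients of `u` -/
noncomputable def hU (f : MvPolynomial σ k) (r m : ℕ) (ω : QZ) (hω : m • ω = 0)
    (p : Fin (m * (r + 1))) :
    NF (JS f (r + 1) m ω hω).F (((finProdFinEquiv.symm p).1.1 + 1) • ω) :=
  ⟨fun x => coeff ((finProdFinEquiv.symm p).1.1 + 1)
    (x.1.2.1 (Sum.inl (finProdFinEquiv.symm p).2)), fun φ c x => coeff_twS _ _ _ _ _⟩

/-- the stratum `(a, i)` -/
@[reducible] noncomputable def Str (f : MvPolynomial σ k) (r m : ℕ) (ω : QZ) (hω : m • ω = 0)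
    (a : ℕ) (i : Fin (r + 1)) : Over k QZ σ (fun _ => 0) :=
  (JS f (r + 1) m ω hω).sub (fun S _ _ x =>
    (∀ (i' : Fin (r + 1)) (c : ℕ), (c < a ∨ (c = a ∧ i' < i)) →
      coeff c (x.1.2.1 (Sum.inl i')) = 0) ∧ IsUnit (coeff a (x.1.2.1 (Sum.inl i))))
    (fun φ c x hx => by
      refine ⟨fun i' c' h => ?_, ?_⟩
      · show coeff c' (twS ω φ c (x.1.2.1 (Sum.inl i'))) = 0
        rw [coeff_twS, hx.1 i' c' h, map_zero, mul_zero]
      · show IsUnit (coeff a (twS ω φ c (x.1.2.1 (Sum.inl i))))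
        rw [coeff_twS]
        exact (chr_isUnit c _).mul (hx.2.map φ))

theorem stp_iso (f : MvPolynomial σ k) (r m : ℕ) (ω : QZ) (hω : m • ω = 0)
    (a : Fin m) (i : Fin (r + 1)) :
    OIso ((JS f (r + 1) m ω hω).stp (hU f r m ω hω) (finProdFinEquiv (a, i)))
      (Str f r m ω hω (a + 1) i) := by
  have key : ∀ (S : Type) [CommRing S] [Algebra k S] (x : (JS f (r + 1) m ω hω).F.obj S),
      ((∀ q < finProdFinEquiv (a, i), (hU f r m ω hω q).fn x = 0) ∧
        IsUnit ((hU f r m ω hω (finProdFinEquiv (a, i))).fn x)) ↔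
      ((∀ (i' : Fin (r + 1)) (c : ℕ), (c < a + 1 ∨ (c = a + 1 ∧ i' < i)) →
        coeff c (x.1.2.1 (Sum.inl i')) = 0) ∧ IsUnit (coeff (a + 1) (x.1.2.1 (Sum.inl i)))) := by
    intro S _ _ x
    have h0 : ∀ (b : Fin m) (i' : Fin (r + 1)), (hU f r m ω hω (finProdFinEquiv (b, i'))).fn x
        = coeff (b + 1) (x.1.2.1 (Sum.inl i')) := by
      intro b i'
      show coeff ((finProdFinEquiv.symm (finProdFinEquiv (b, i'))).1.1 + 1)
        (x.1.2.1 (Sum.inl (finProdFinEquiv.symm (finProdFinEquiv (b, i'))).2)) = _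
      rw [Equiv.symm_apply_apply]
    have hlt : ∀ (b : Fin m) (i' : Fin (r + 1)),
        finProdFinEquiv (b, i') < finProdFinEquiv (a, i) ↔ (b < a ∨ (b = a ∧ i' < i)) := by
      intro b i'
      rw [Fin.lt_def, finProdFinEquiv_apply_val, finProdFinEquiv_apply_val]
      show (i' : ℕ) + (r + 1) * (b : ℕ) < i + (r + 1) * a ↔ _
      have e1 := i'.2
      have e2 := i.2
      rw [Fin.lt_def, Fin.lt_def, Fin.ext_iff]
      constructor
      · intro h
        rcases lt_trichotomy (b : ℕ) a with h' | h' | h'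
        · exact Or.inl h'
        · refine Or.inr ⟨h', ?_⟩
          rw [h'] at h
          omega
        · exfalso
          obtain ⟨d, hd⟩ := Nat.exists_eq_add_of_lt h'
          rw [hd] at h
          nlinarith
      · rintro (h | ⟨h, h'⟩)
        · obtain ⟨d, hd⟩ := Nat.exists_eq_add_of_lt h
          rw [hd]
          nlinarith
        · rw [h]
          omega
    rw [h0]
    refine and_congr ?_ Iff.rfl
    constructor
    · intro h i' c hc
      rcases Nat.eq_zero_or_pos c with h1 | h1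
      · rw [h1]
        exact x.1.2.2 _ _ (fun h => by have := h.1; omega)
      · obtain ⟨c, rfl⟩ := Nat.exists_eq_add_of_lt h1
        rw [zero_add] at hc ⊢
        have hcm : c < m := by have := a.2; omega
        have := h (finProdFinEquiv (⟨c, hcm⟩, i')) ((hlt _ _).2 (by
          rcases hc with hc | ⟨hc, hc'⟩
          · refine Or.inl ?_
            rw [Fin.lt_def]
            show c < (a : ℕ)
            omega
          · refine Or.inr ⟨Fin.ext ?_, hc'⟩
            show c = (a : ℕ)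
            omega))
        rwa [h0] at this
    · intro h q hq
      obtain ⟨⟨b, i'⟩, rfl⟩ := finProdFinEquiv.surjective q
      rw [h0]
      rcases (hlt b i').1 hq with h1 | ⟨h1, h2⟩
      · exact h i' _ (Or.inl (by rw [Fin.lt_def] at h1; omega))
      · exact h i' _ (Or.inr ⟨by rw [h1], h2⟩)
  exact OIso.mk' (fun S _ _ x => ⟨x.1, (key S x.1).1 x.2⟩) (fun S _ _ x => ⟨x.1, (key S x.1).2 x.2⟩)
    (fun S _ _ x => rfl) (fun S _ _ x => rfl) (fun φ c x => rfl) (fun S _ _ x b => rfl)

theorem fuv_low {S : Type} [CommRing S] [Algebra k S] {r : ℕ} (f : MvPolynomial σ k)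
    (γ : σ → PowerSeries S) (w : Fin r ⊕ Fin r → PowerSeries S) {a : ℕ}
    (hu : ∀ i' j, j < a → coeff j (w (Sum.inl i')) = 0)
    (hv : ∀ i', coeff 0 (w (Sum.inr i')) = 0) {j : ℕ} (hj : j ≤ a) :
    coeff j (fuv f γ w) = jf f γ j := by
  rw [fuv, map_add, map_sum, Finset.sum_eq_zero, add_zero]
  intro i' _
  exact coeff_mul_ord (hu i') (hv i') hj

theorem Str_iso (f : MvPolynomial σ k) (r m : ℕ) (ω : QZ) (hω : m • ω = 0)
    (a : ℕ) (h1 : 1 ≤ a) (ham : a ≤ m) (i : Fin (r + 1)) :
    OIso (Str f r m ω hω a i)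
      (((JY f m a ω hω).times (GF.gm k (a • ω))).times (GF.sup k (Dp r m a i) ω)) := by
  classical
  have hlow : ∀ (S : Type) [CommRing S] [Algebra k S] (x : (Str f r m ω hω a i).F.obj S) (j : ℕ),
      j ≤ a → jf f x.1.1.1.1 j = if j = m then 1 else 0 := by
    intro S _ _ x j hj
    rw [← x.1.2 j (hj.trans ham)]
    exact (fuv_low f x.1.1.1.1 x.1.1.2.1 (fun i' j hj => x.2.1 i' j (Or.inl hj))
      (fun i' => x.1.1.2.2 _ _ fun h => by have := h.1; omega) hj).symm
  refine OIso.ofBij (fun S _ _ x => ((⟨x.1.1.1, hlow S x⟩, ⟨coeff a (x.1.1.2.1 (Sum.inl i)), x.2.2⟩),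
    ⟨trD (Dp r m a i) x.1.1.2.1, fun i' j h => by rw [coeff_trD, if_neg h]⟩)) ?_ ?_ ?_
  · intro S S' _ _ _ _ φ c x
    refine Prod.ext (Prod.ext rfl (Subtype.ext ?_)) (Subtype.ext ?_)
    · show coeff a (twS ω φ c (x.1.1.2.1 (Sum.inl i)))
        = chr c (a • ω) * φ (coeff a (x.1.1.2.1 (Sum.inl i)))
      rw [coeff_twS]
    · funext i'
      show trD (Dp r m a i) (fun i => twS ω φ c (x.1.1.2.1 i)) i'
        = twS ω φ c (trD (Dp r m a i) x.1.1.2.1 i')
      rw [twS_trD]
  · intro S _ _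
    constructor
    · intro x y hxy
      have hγ : x.1.1.1 = y.1.1.1 := congrArg (fun q => q.1.1.1) hxy
      have hg : coeff a (x.1.1.2.1 (Sum.inl i)) = coeff a (y.1.1.2.1 (Sum.inl i)) :=
        congrArg (fun q => q.1.2.1) hxy
      have hw : ∀ q j, (q, j) ∈ Dp r m a i → coeff j (x.1.1.2.1 q) = coeff j (y.1.1.2.1 q) := by
        intro q j hq
        have h2 := congrArg (fun z => coeff j (z.2.1 q)) hxy
        change coeff j (trD (Dp r m a i) x.1.1.2.1 q) = coeff j (trD (Dp r m a i) y.1.1.2.1 q) at h2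
        rwa [coeff_trD, coeff_trD, if_pos hq, if_pos hq] at h2
      have hu : ∀ i', x.1.1.2.1 (Sum.inl i') = y.1.1.2.1 (Sum.inl i') := by
        intro i'
        ext j
        by_cases h2 : j < a ∨ (j = a ∧ i' < i)
        · rw [x.2.1 i' j h2, y.2.1 i' j h2]
        · by_cases h3 : j = a ∧ i' = i
          · rw [h3.1, h3.2, hg]
          · by_cases h4 : j ≤ m
            · refine hw _ _ (mem_Dp_inl.2 ?_)
              by_cases h5 : j = a
              · refine Or.inr ⟨h5, ?_⟩
                rcases lt_trichotomy i i' with h6 | h6 | h6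
                · exact h6
                · exact absurd ⟨h5, h6.symm⟩ h3
                · exact absurd (Or.inr ⟨h5, h6⟩) h2
              · exact Or.inl ⟨by omega, h4⟩
            · rw [x.1.1.2.2 _ _ (fun h => h4 h.2), y.1.1.2.2 _ _ (fun h => h4 h.2)]
      have hv : ∀ i', i' ≠ i → x.1.1.2.1 (Sum.inr i') = y.1.1.2.1 (Sum.inr i') := by
        intro i' hi'
        ext j
        by_cases h2 : 1 ≤ j ∧ j ≤ m
        · exact hw _ _ (mem_Dp_inr.2 (Or.inl ⟨h2.1, h2.2, hi'⟩))
        · rw [x.1.1.2.2 _ _ h2, y.1.1.2.2 _ _ h2]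
      have hvi : x.1.1.2.1 (Sum.inr i) = y.1.1.2.1 (Sum.inr i) := by
        have h2 : ∀ j, j ≤ m → coeff j (x.1.1.2.1 (Sum.inl i) *
            (x.1.1.2.1 (Sum.inr i) - y.1.1.2.1 (Sum.inr i))) = 0 := by
          intro j hj
          have h3 := (x.1.2 j hj).trans (y.1.2 j hj).symm
          change coeff j (fuv f x.1.1.1.1 x.1.1.2.1) = coeff j (fuv f y.1.1.1.1 y.1.1.2.1) at h3
          rw [fuv, fuv, hγ, map_add, map_add, add_right_inj, ← sub_eq_zero, ← map_sub,
            ← Finset.sum_sub_distrib, Finset.sum_eq_single i] at h3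
          · rw [← hu i] at h3
            rw [mul_sub]
            exact h3
          · intro i' _ hi'
            rw [hu i', hv i' hi', sub_self]
          · intro h
            exact absurd (Finset.mem_univ _) h
        ext j
        by_cases h3 : 1 ≤ j ∧ j ≤ m
        · by_cases h4 : m - a < j
          · exact hw _ _ (mem_Dp_inr.2 (Or.inr ⟨rfl, h4, h3.2⟩))
          · have h5 := cell_uniq (fun j hj => x.2.1 i j (Or.inl hj)) x.2.2 h2 j (by omega)
            rwa [map_sub, sub_eq_zero] at h5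
        · rw [x.1.1.2.2 _ _ h3, y.1.1.2.2 _ _ h3]
      refine Subtype.ext (Subtype.ext (Prod.ext hγ (Subtype.ext (funext fun q => ?_))))
      rcases q with i' | i'
      · exact hu i'
      · by_cases hi' : i' = i
        · rw [hi']; exact hvi
        · exact hv i' hi'
    · rintro ⟨⟨⟨γ, hγ⟩, ⟨g, hg⟩⟩, ⟨w, hw⟩⟩
      let u : Fin (r + 1) → PowerSeries S := fun i' =>
        w (Sum.inl i') + if i' = i then C g * PowerSeries.X ^ a else 0
      have huc : ∀ i' j, coeff j (u i') = coeff j (w (Sum.inl i')) +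
          if i' = i ∧ j = a then g else 0 := by
        intro i' j
        show coeff j (w (Sum.inl i') + if i' = i then C g * PowerSeries.X ^ a else 0) = _
        rw [map_add]
        congr 1
        by_cases h2 : i' = i
        · rw [if_pos h2, coeff_C_mul, coeff_X_pow]
          by_cases h3 : j = a
          · rw [if_pos h3, if_pos ⟨h2, h3⟩, mul_one]
          · rw [if_neg h3, if_neg (fun h => h3 h.2), mul_zero]
        · rw [if_neg h2, if_neg (fun h => h2 h.1), map_zero]
      have hu1 : ∀ i' j, (j < a ∨ (j = a ∧ i' < i)) → coeff j (u i') = 0 := by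
        intro i' j hj
        rw [huc, hw _ _ (fun h => ?_), if_neg (fun h => ?_), add_zero]
        · rcases hj with hj | ⟨hj, hj'⟩
          · omega
          · exact absurd h.1 hj'.ne
        · rcases mem_Dp_inl.1 h with h2 | ⟨h2, h3⟩
          · omega
          · rcases hj with hj | ⟨hj, hj'⟩
            · omega
            · exact absurd h3 hj'.asymm
      have hu2 : coeff a (u i) = g := by
        rw [huc, hw _ _ (fun h => ?_), if_pos ⟨rfl, rfl⟩, zero_add]
        rcases mem_Dp_inl.1 h with h2 | ⟨h2, h3⟩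
        · omega
        · exact absurd h3 (lt_irrefl _)
      have hv0 : ∀ i', coeff 0 (w (Sum.inr i')) = 0 := fun i' => hw _ _ fun h => by
        rcases mem_Dp_inr.1 h with h2 | h2 <;> omega
      let G : PowerSeries S := PowerSeries.X ^ m - MvPolynomial.aeval γ.1 f -
        ∑ i' : Fin (r + 1), u i' * w (Sum.inr i')
      have hG : ∀ j, j ≤ a → coeff j G = 0 := by
        intro j hj
        have h3 : coeff j (MvPolynomial.aeval γ.1 f) = if j = m then 1 else 0 := hγ j hj
        show coeff j (PowerSeries.X ^ m - MvPolynomial.aeval γ.1 f -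
          ∑ i' : Fin (r + 1), u i' * w (Sum.inr i')) = 0
        rw [map_sub, map_sub, coeff_X_pow, h3, sub_self, zero_sub, neg_eq_zero, map_sum]
        exact Finset.sum_eq_zero fun i' _ =>
          coeff_mul_ord (fun j hj => hu1 i' j (Or.inl hj)) (hv0 i') hj
      obtain ⟨V, hV0, hV1, hV2⟩ := cell_ex ham (fun j hj => hu1 i j (Or.inl hj))
        (by rw [hu2]; exact hg) hG
      let W : Fin (r + 1) ⊕ Fin (r + 1) → PowerSeries S :=
        Sum.elim u (fun i' => w (Sum.inr i') + if i' = i then V else 0)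
      have hWr : ∀ i' j, coeff j (W (Sum.inr i')) = coeff j (w (Sum.inr i')) +
          if i' = i then coeff j V else 0 := by
        intro i' j
        show coeff j (w (Sum.inr i') + if i' = i then V else 0) = _
        rw [map_add]
        congr 1
        split_ifs
        · rfl
        · rw [map_zero]
      have hWs : ∀ q j, (q, j) ∉ Dm (r + 1) m → coeff j (W q) = 0 := by
        intro q j hq
        have hq' : ¬ (1 ≤ j ∧ j ≤ m) := hq
        cases q with
        | inl i' =>
          show coeff j (u i') = 0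
          rw [huc, hw _ _ (fun h => ?_), if_neg (fun h => ?_), add_zero]
          · have := h.2; omega
          · rcases mem_Dp_inl.1 h with h2 | h2 <;> omega
        | inr i' =>
          rw [hWr, hw _ _ (fun h => ?_), zero_add]
          · split_ifs
            · rcases Nat.eq_zero_or_pos j with h2 | h2
              · rw [h2, hV0]
              · exact hV1 j (by omega)
            · rfl
          · rcases mem_Dp_inr.1 h with h2 | h2 <;> omega
      have hEq : ∀ j, j ≤ m → coeff j (fuv f γ.1 W) = if j = m then 1 else 0 := by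
        intro j hj
        have h3 : fuv f γ.1 W = (PowerSeries.X ^ m - G) + u i * V := by
          show MvPolynomial.aeval γ.1 f + ∑ i' : Fin (r + 1), u i' * (w (Sum.inr i') +
              if i' = i then V else 0) = (PowerSeries.X ^ m - (PowerSeries.X ^ m -
              MvPolynomial.aeval γ.1 f - ∑ i' : Fin (r + 1), u i' * w (Sum.inr i'))) + u i * V
          have h4 : ∑ i' : Fin (r + 1), u i' * (w (Sum.inr i') + if i' = i then V else 0)
              = ∑ i' : Fin (r + 1), u i' * w (Sum.inr i') + u i * V := by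
            simp only [mul_add, Finset.sum_add_distrib, mul_ite, mul_zero, Finset.sum_ite_eq',
              Finset.mem_univ, if_true]
          rw [h4]
          ring
        rw [h3, map_add, hV2 j hj, map_sub, coeff_X_pow]
        ring
      refine ⟨⟨⟨(γ, ⟨W, hWs⟩), hEq⟩, fun i' j hj => hu1 i' j hj, by
        show IsUnit (coeff a (u i)); rw [hu2]; exact hg⟩, ?_⟩
      refine Prod.ext (Prod.ext rfl (Subtype.ext hu2)) (Subtype.ext (funext fun q => ?_))
      show trD (Dp r m a i) W q = w q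
      ext j
      rw [coeff_trD]
      by_cases hq : (q, j) ∈ Dp r m a i
      · rw [if_pos hq]
        cases q with
        | inl i' =>
          show coeff j (u i') = _
          rw [huc, if_neg (fun h => ?_), add_zero]
          rcases mem_Dp_inl.1 hq with h2 | ⟨h2, h3⟩
          · omega
          · exact absurd h.1 h3.ne'
        | inr i' =>
          rw [hWr]
          by_cases h2 : i' = i
          · rw [if_pos h2, hV1 j, add_zero]
            rcases mem_Dp_inr.1 hq with h3 | h3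
            · exact absurd h2 h3.2.2
            · exact h3.2.1
          · rw [if_neg h2, add_zero]
      · rw [if_neg hq, hw _ _ hq]
  · intro S _ _ x b
    rfl

theorem stz_iso (f : MvPolynomial σ k) (r m : ℕ) (ω : QZ) (hω : m • ω = 0) :
    OIso ((JS f (r + 1) m ω hω).stz (hU f r m ω hω))
      ((JY f m m ω hω).times (GF.pi k fun p : Fin (r + 1) × Fin m => ((p.2 : ℕ) + 1) • ω)) := by
  have hz : ∀ (S : Type) [CommRing S] [Algebra k S]
      (x : ((JS f (r + 1) m ω hω).stz (hU f r m ω hω)).F.obj S) (i' : Fin (r + 1)),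
      x.1.1.2.1 (Sum.inl i') = 0 := by
    intro S _ _ x i'
    ext j
    rw [map_zero]
    by_cases h : 1 ≤ j ∧ j ≤ m
    · obtain ⟨c, rfl⟩ := Nat.exists_eq_add_of_le' h.1
      have h2 := x.2 (finProdFinEquiv (⟨c, by omega⟩, i'))
      change coeff ((finProdFinEquiv.symm (finProdFinEquiv ((⟨c, by omega⟩ : Fin m), i'))).1.1 + 1)
        (x.1.1.2.1 (Sum.inl (finProdFinEquiv.symm
          (finProdFinEquiv ((⟨c, by omega⟩ : Fin m), i'))).2)) = 0 at h2
      rwa [Equiv.symm_apply_apply] at h2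
    · exact x.1.1.2.2 _ _ h
  have hf : ∀ (S : Type) [CommRing S] [Algebra k S] (γ : σ → PowerSeries S)
      (w : Fin (r + 1) ⊕ Fin (r + 1) → PowerSeries S), (∀ i', w (Sum.inl i') = 0) →
      fuv f γ w = MvPolynomial.aeval γ f := by
    intro S _ _ γ w h
    rw [fuv, Finset.sum_eq_zero (fun i' _ => by rw [h i', zero_mul]), add_zero]
  refine OIso.mk' (fun S _ _ x => (⟨x.1.1.1, fun j hj => ?_⟩,
      fun p => coeff ((p.2 : ℕ) + 1) (x.1.1.2.1 (Sum.inr p.1))))
    (fun S _ _ y => ⟨⟨(y.1.1, ⟨Sum.elim (fun _ => 0) (fun i' => PowerSeries.mk fun j =>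
      if h : 1 ≤ j ∧ j ≤ m then y.2 (i', ⟨j - 1, by omega⟩) else 0), fun q j hq => ?_⟩),
        fun j hj => ?_⟩, fun p => ?_⟩) ?_ ?_ ?_ ?_
  · show coeff j (MvPolynomial.aeval x.1.1.1.1 f) = _
    rw [← hf S x.1.1.1.1 x.1.1.2.1 (hz S x)]
    exact x.1.2 j hj
  · have hq' : ¬ (1 ≤ j ∧ j ≤ m) := hq
    cases q with
    | inl i' => exact map_zero _
    | inr i' =>
      show coeff j (PowerSeries.mk fun j =>
        if h : 1 ≤ j ∧ j ≤ m then y.2 (i', ⟨j - 1, by omega⟩) else 0) = 0
      rw [coeff_mk, dif_neg hq']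
  · rw [hf _ _ _ fun i' => rfl]
    exact y.1.2 j hj
  · exact map_zero _
  · intro S _ _ x
    refine Subtype.ext (Subtype.ext (Prod.ext rfl (Subtype.ext (funext fun q => ?_))))
    cases q with
    | inl i' => exact (hz S x i').symm
    | inr i' =>
      ext j
      show coeff j (PowerSeries.mk fun j =>
        if h : 1 ≤ j ∧ j ≤ m then coeff (j - 1 + 1) (x.1.1.2.1 (Sum.inr i')) else 0)
          = coeff j (x.1.1.2.1 (Sum.inr i'))
      rw [coeff_mk]
      split_ifs with h
      · rw [Nat.sub_add_cancel h.1]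
      · exact (x.1.1.2.2 _ _ h).symm
  · intro S _ _ y
    refine Prod.ext rfl (funext fun p => ?_)
    show coeff ((p.2 : ℕ) + 1) (PowerSeries.mk fun j =>
        if h : 1 ≤ j ∧ j ≤ m then y.2 (p.1, ⟨j - 1, by omega⟩) else 0) = y.2 p
    rw [coeff_mk, dif_pos ⟨by omega, by have := p.2.2; omega⟩]
    rfl
  · intro S S' _ _ _ _ φ c x
    refine Prod.ext rfl (funext fun p => ?_)
    show coeff ((p.2 : ℕ) + 1) (twS ω φ c (x.1.1.2.1 (Sum.inr p.1)))
      = chr c (((p.2 : ℕ) + 1) • ω) * φ (coeff ((p.2 : ℕ) + 1) (x.1.1.2.1 (Sum.inr p.1)))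
    rw [coeff_twS]
  · intro S _ _ x b
    rfl

end strat

/-! ## The sum -/

theorem cell_geom {R : Type 1} [CommRing R] (L : R) (r : ℕ) :
    ∑ i : Fin (r + 1), (L - 1) * L ^ (r - (i : ℕ)) = L ^ (r + 1) - 1 := by
  rw [← Finset.mul_sum, Finset.sum_fin_eq_sum_range]
  have h : ∀ i ∈ Finset.range (r + 1), (if h : i < r + 1 then L ^ (r - i) else 0)
      = L ^ (r + 1 - 1 - i) := by
    intro i hi
    rw [dif_pos (Finset.mem_range.1 hi), Nat.add_sub_cancel]
  rw [Finset.sum_congr rfl h, Finset.sum_range_reflect (fun j => L ^ j) (r + 1)]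
  exact mul_geom_sum L (r + 1)

theorem cell_sum {R : Type 1} [CommRing R] (m : ℕ) (F : ℕ → R) :
    ∑ a : Fin m, F ((a : ℕ) + 1) = ∑ a ∈ Finset.Icc 1 m, F a := by
  rw [Fin.sum_univ_eq_sum_range (fun a => F (a + 1)) m, Finset.range_eq_Ico,
    Finset.sum_Ico_add' F 0 m 1, zero_add]
  rfl

/-- MODULE CELL -/
theorem cell : CellStmt := by
  intro k _ σ _ f R _ L χ r m hm ω hω
  have hJS := FT_JS f (r + 1) m ω hω
  rw [χ.stair hJS (hU f r m ω hω), ← Equiv.sum_comp finProdFinEquiv, Fintype.sum_prod_type]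
  have hz : χ.χ ((JS f (r + 1) m ω hω).stz (hU f r m ω hω))
      = (L : R) ^ ((r + 1) * m) * χ.χ (JY f m m ω hω) := by
    rw [χ.iso (FT.stz hJS _) (stz_iso f r m ω hω), χ.times_pi (FT_JY f m m ω hω), Nat.card_prod,
      Nat.card_fin, Nat.card_fin]
  have hp : ∀ (a : Fin m) (i : Fin (r + 1)),
      χ.χ ((JS f (r + 1) m ω hω).stp (hU f r m ω hω) (finProdFinEquiv (a, i)))
        = ((L : R) - 1) * (L : R) ^ (r - (i : ℕ)) *
          ((L : R) ^ ((r + 1) * m + r * (m - ((a : ℕ) + 1))) *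
            χ.χ (JY f m ((a : ℕ) + 1) ω hω)) := by
    intro a i
    have ha : (a : ℕ) + 1 ≤ m := a.2
    rw [χ.iso (FT.stp hJS _ _) ((stp_iso f r m ω hω a i).trans
      (Str_iso f r m ω hω ((a : ℕ) + 1) (by omega) ha i)),
      χ.times_sup ((FT_JY f m _ ω hω).prod (FT.gm _)) (Dp_finite r m _ i ha) ω,
      χ.times_gm (FT_JY f m _ ω hω), Dp_ncard r m _ i (by omega) ha, pow_add _ _ (r - (i : ℕ))]
    ring
  rw [hz]
  congr 1
  have hs : ∀ a : Fin m, ∑ i : Fin (r + 1),
      χ.χ ((JS f (r + 1) m ω hω).stp (hU f r m ω hω) (finProdFinEquiv (a, i)))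
        = ((L : R) ^ (r + 1) - 1) * ((L : R) ^ ((r + 1) * m + r * (m - ((a : ℕ) + 1))) *
            χ.χ (JY f m ((a : ℕ) + 1) ω hω)) := by
    intro a
    rw [Finset.sum_congr rfl fun i _ => hp a i, ← Finset.sum_mul, cell_geom]
  rw [Finset.sum_congr rfl fun a _ => hs a, ← Finset.mul_sum,
    cell_sum m (fun a => (L : R) ^ ((r + 1) * m + r * (m - a)) * χ.χ (JY f m a ω hω))]

end Pool.Agent.Helper8_CR.H68
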