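import Pool.Agent.Helper8_CR.Stmts

/-!
# Squad CR, module SER: the restriction of the zeta function of the stabilization
-/

set_option autoImplicit false
set_option linter.unusedVariables false

namespace Pool.Agent.Helper8_CR.H68

open MvPolynomial Pool.Agent.Helper6_Mono Pool.Agent.Helper6_Mono.RingPart

section lpow

variable {k : Type} [Field k] {σ : Type} [Finite σ] (f : MvPolynomial σ k)

theorem Lpow_add (a b : ℤ) : Lpow f (a + b) = Lpow f a * Lpow f b := by
  unfold Lpow
  rw [zpow_add, Units.val_mul]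

theorem Lpow_natCast (n : ℕ) : Lpow f (n : ℤ) = ((LL f : (MM f)ˣ) : MM f) ^ n := by
  unfold Lpow
  rw [zpow_natCast, Units.val_pow_eq_pow_val]

theorem Lpow_pow (a : ℤ) (n : ℕ) : Lpow f a ^ n = Lpow f (a * n) := by
  unfold Lpow
  rw [← Units.val_pow_eq_pow_val, ← zpow_natCast, ← zpow_mul]

theorem Lpow_map {τ : Type} [Finite τ] (F : MvPolynomial τ k) (ψ : MM F →+* MM f)
    (hψ : ψ (LL F : (MM F)ˣ) = ((LL f : (MM f)ˣ) : MM f)) (a : ℤ) :
    ψ (Lpow F a) = Lpow f a := by
  have h : Units.map (ψ : MM F →* MM f) (LL F) = LL f := by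
    ext
    exact hψ
  unfold Lpow
  rw [← h, ← map_zpow]
  rfl

end lpow

theorem ser_geom {M : Type 1} [CommRing M] (c : M) (R : PowerSeries M) :
    (1 - PowerSeries.C c * PowerSeries.X) *
      PowerSeries.mk (fun m => ∑ a ∈ Finset.range m, c ^ (m - a) * PowerSeries.coeff a R) =
      PowerSeries.C c * PowerSeries.X * R := by
  ext m
  rw [sub_mul, one_mul, map_sub, PowerSeries.coeff_mk, mul_assoc, mul_assoc,
    PowerSeries.coeff_C_mul, PowerSeries.coeff_C_mul]
  cases m with
  | zero =>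
    rw [Finset.range_zero, Finset.sum_empty, PowerSeries.coeff_zero_X_mul,
      PowerSeries.coeff_zero_X_mul, mul_zero, sub_zero]
  | succ m =>
    rw [PowerSeries.coeff_succ_X_mul, PowerSeries.coeff_succ_X_mul, PowerSeries.coeff_mk,
      Finset.sum_range_succ, Finset.mul_sum, show m + 1 - m = 1 by omega, pow_one]
    have h : ∀ a ∈ Finset.range m, c ^ (m + 1 - a) * PowerSeries.coeff a R =
        c * (c ^ (m - a) * PowerSeries.coeff a R) := by
      intro a ha
      have ha' := Finset.mem_range.1 ha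
      rw [show m + 1 - a = (m - a) + 1 by omega, pow_succ]
      ring
    rw [Finset.sum_congr rfl h]
    ring

theorem ser_coeff {M : Type 1} [CommRing M] (L : M) (r m n : ℕ) (hm : m ≠ 0) (J Z cR : ℕ → M)
    (c q Lr : M)
    (hJ : ∀ a, a < m → (L ^ (r + 1) - 1) * J a = (L ^ (r + 1) - 1) * (L ^ (n * (m - a)) * Z a))
    (hc : c * L ^ ((r + 1) * m) = q)
    (hA : ∀ a, a < m → a ≠ 0 →
      q * (L ^ (r * (m - a)) * (L ^ (n * (m - a)) * Z a)) = Lr ^ (m - a) * cR a)
    (h0 : cR 0 = 0) :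
    c * ((L ^ (r + 1) - 1) * ∑ a ∈ Finset.Icc 1 m, L ^ ((r + 1) * m + r * (m - a)) * J a +
      L ^ ((r + 1) * m) * J m) =
    L ^ (r + 1) * (J m * q) + (L ^ (r + 1) - 1) * ∑ a ∈ Finset.range m, Lr ^ (m - a) * cR a := by
  have hsum : (L ^ (r + 1) - 1) * ∑ a ∈ Finset.Icc 1 m, L ^ ((r + 1) * m + r * (m - a)) * J a =
      L ^ ((r + 1) * m) * ((L ^ (r + 1) - 1) * (∑ a ∈ Finset.Ico 1 m, L ^ (r * (m - a)) *
        (L ^ (n * (m - a)) * Z a) + J m)) := by
    have e1 : Finset.Icc 1 m = insert m (Finset.Ico 1 m) := by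
      ext a
      rw [Finset.mem_insert, Finset.mem_Icc, Finset.mem_Ico]
      omega
    rw [e1, Finset.sum_insert (by rw [Finset.mem_Ico]; omega), Nat.sub_self, mul_zero, add_zero,
      mul_add, Finset.mul_sum]
    have e2 : ∀ a ∈ Finset.Ico 1 m, (L ^ (r + 1) - 1) * (L ^ ((r + 1) * m + r * (m - a)) *
        J a) = L ^ ((r + 1) * m) * ((L ^ (r + 1) - 1) *
          (L ^ (r * (m - a)) * (L ^ (n * (m - a)) * Z a))) := by
      intro a ha
      have e3 := hJ a (Finset.mem_Ico.1 ha).2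
      calc _ = L ^ ((r + 1) * m) * L ^ (r * (m - a)) * ((L ^ (r + 1) - 1) * J a) := by
            rw [pow_add]; ring
        _ = _ := by rw [e3]; ring
    rw [Finset.sum_congr rfl e2, ← Finset.mul_sum, ← Finset.mul_sum]
    ring
  have hR2 : ∑ a ∈ Finset.range m, Lr ^ (m - a) * cR a =
      ∑ a ∈ Finset.Ico 1 m, Lr ^ (m - a) * cR a := by
    have e1 : Finset.range m = insert 0 (Finset.Ico 1 m) := by
      ext a
      rw [Finset.mem_insert, Finset.mem_range, Finset.mem_Ico]
      omega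
    rw [e1, Finset.sum_insert (by rw [Finset.mem_Ico]; omega), h0, mul_zero, zero_add]
  have hS : q * (∑ a ∈ Finset.Ico 1 m, L ^ (r * (m - a)) * (L ^ (n * (m - a)) * Z a)) =
      ∑ a ∈ Finset.Ico 1 m, Lr ^ (m - a) * cR a := by
    rw [Finset.mul_sum]
    exact Finset.sum_congr rfl fun a ha => hA a (Finset.mem_Ico.1 ha).2
      (by have := (Finset.mem_Ico.1 ha).1; omega)
  rw [hsum, hR2, ← hS, ← hc]
  ring

/-- MODULE SER -/
theorem ser (h1 : PresStmt) (h2 : CellStmt) (h3 : YredStmt) (h4 : GmtStmt) : SerStmt := by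
  intro k _ σ _ f
  set n : ℕ := Nat.card σ with hn
  let R : PowerSeries (MM f) := PowerSeries.mk fun a =>
    if a = 0 then 0 else (chi f).χ (JZ f a 0) * Lpow f (-((n : ℤ) * a))
  have hR : ∀ a, a ≠ 0 → PowerSeries.coeff a R = (chi f).χ (JZ f a 0) * Lpow f (-((n : ℤ) * a)) := by
    intro a ha
    show PowerSeries.coeff a (PowerSeries.mk _) = _
    rw [PowerSeries.coeff_mk, if_neg ha]
  have hR0 : PowerSeries.coeff 0 R = 0 := by
    show PowerSeries.coeff 0 (PowerSeries.mk _) = _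
    rw [PowerSeries.coeff_mk, if_pos rfl]
  refine ⟨R, fun r => ?_⟩
  have hω1 : ∀ m : ℕ, m ≠ 0 → m • ((((1 : ℚ) / m : ℚ)) : QZ) = 0 := by
    intro m hm
    rw [← AddCircle.coe_nsmul, nsmul_eq_mul, mul_one_div_cancel (by exact_mod_cast hm)]
    exact AddCircle.coe_period 1
  obtain ⟨ψ, hψ, hψX⟩ := (h1 k σ f 1 one_ne_zero (hω1 1 one_ne_zero)).2 (r + 1)
  refine ⟨ψ, hψ, ?_⟩
  set L : MM f := ((LL f : (MM f)ˣ) : MM f) with hL
  -- the key formula
  have key : PowerSeries.rescale (Lpow f (r + 1)) (PowerSeries.map ψ (Zf (stab f (r + 1)))) =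
      PowerSeries.C (Lpow f (r + 1)) * Zf f + PowerSeries.C (Lpow f (r + 1) - 1) *
        PowerSeries.mk (fun m => ∑ a ∈ Finset.range m,
          Lpow f r ^ (m - a) * PowerSeries.coeff a R) := by
    ext m
    rw [PowerSeries.coeff_rescale, PowerSeries.coeff_map, map_add, PowerSeries.coeff_C_mul,
      PowerSeries.coeff_C_mul, PowerSeries.coeff_mk]
    unfold Zf
    rw [PowerSeries.coeff_mk, PowerSeries.coeff_mk]
    unfold zetaCoeff
    by_cases hm : m = 0
    · subst hm
      simp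
    · rw [dif_neg hm, dif_neg hm, map_mul, Lpow_map f _ ψ hψ, hψX m hm (hω1 m hm),
        h2 k σ f (MM f) (LL f) (chi f) r m (Nat.pos_of_ne_zero hm) _ (hω1 m hm),
        (h1 k σ f m hm (hω1 m hm)).1]
      set ω : QZ := ((((1 : ℚ) / m : ℚ)) : QZ) with hω
      set Y := (chi f).χ (JY f m m ω (hω1 m hm)) with hY
      have hgeo : L ^ (r + 1) - 1 = (∑ i ∈ Finset.range (r + 1), L ^ i) * (L - 1) :=
        (geom_sum_mul L (r + 1)).symm
      have hJ : ∀ a, a < m → (L ^ (r + 1) - 1) * (chi f).χ (JY f m a ω (hω1 m hm)) =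
          (L ^ (r + 1) - 1) * (L ^ (n * (m - a)) * (chi f).χ (JZ f a 0)) := by
        intro a ha
        rw [h3 k σ f (MM f) (LL f) (chi f) m a ha ω (hω1 m hm)]
        have e := h4 k σ f (MM f) (LL f) (chi f) a ω
        rw [hgeo]
        calc (∑ i ∈ Finset.range (r + 1), L ^ i) * (L - 1) *
              (L ^ (n * (m - a)) * (chi f).χ (JZ f a ω))
            = (∑ i ∈ Finset.range (r + 1), L ^ i) * L ^ (n * (m - a)) *
              ((L - 1) * (chi f).χ (JZ f a ω)) := by ring
          _ = _ := by rw [e]; ring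
      -- the powers of `L`
      have hLr : Lpow f (r + 1) = L ^ (r + 1) := by
        have := Lpow_natCast f (r + 1)
        rwa [Nat.cast_add, Nat.cast_one] at this
      have hcard : (Nat.card (SV σ (r + 1)) : ℤ) = n + 2 * (r + 1) := by
        rw [Nat.card_sum, Nat.card_sum, Nat.card_fin]
        push_cast
        ring
      have hB : Lpow f (r + 1) ^ m * Lpow f (-((m : ℤ) * Nat.card (SV σ (r + 1)))) *
          L ^ ((r + 1) * m) = Lpow f (-((m : ℤ) * n)) := by
        rw [Lpow_pow, ← Lpow_natCast, ← Lpow_add, ← Lpow_add, hcard]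
        congr 1
        push_cast
        ring
      have hA : ∀ a, a < m → Lpow f (-((m : ℤ) * n)) * (L ^ (r * (m - a)) *
          (L ^ (n * (m - a)) * (chi f).χ (JZ f a 0))) =
          Lpow f r ^ (m - a) * ((chi f).χ (JZ f a 0) * Lpow f (-((n : ℤ) * a))) := by
        intro a ha
        have e : Lpow f (-((m : ℤ) * n)) * (L ^ (r * (m - a)) * L ^ (n * (m - a))) =
            Lpow f r ^ (m - a) * Lpow f (-((n : ℤ) * a)) := by
          rw [Lpow_pow, ← Lpow_natCast, ← Lpow_natCast, ← Lpow_add, ← Lpow_add, ← Lpow_add]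
          congr 1
          push_cast [Nat.cast_sub ha.le]
          ring
        calc Lpow f (-((m : ℤ) * n)) * (L ^ (r * (m - a)) *
              (L ^ (n * (m - a)) * (chi f).χ (JZ f a 0)))
            = Lpow f (-((m : ℤ) * n)) * (L ^ (r * (m - a)) * L ^ (n * (m - a))) *
              (chi f).χ (JZ f a 0) := by ring
          _ = _ := by rw [e]; ring
      have hfin := ser_coeff L r m n hm (fun a => (chi f).χ (JY f m a ω (hω1 m hm)))
        (fun a => (chi f).χ (JZ f a 0)) (fun a => PowerSeries.coeff a R)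
        (Lpow f (r + 1) ^ m * Lpow f (-((m : ℤ) * Nat.card (SV σ (r + 1)))))
        (Lpow f (-((m : ℤ) * n))) (Lpow f r) hJ hB
        (fun a ha ha0 => by rw [hR a ha0]; exact hA a ha) hR0
      rw [hLr] at hfin ⊢
      refine Eq.trans ?_ hfin
      ring
  rw [key]
  have := ser_geom (Lpow f r) R
  calc _ = PowerSeries.C (Lpow f (r + 1)) *
        (1 - PowerSeries.C (Lpow f r) * PowerSeries.X) * Zf f +
        PowerSeries.C (Lpow f (r + 1) - 1) * ((1 - PowerSeries.C (Lpow f r) * PowerSeries.X) *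
          PowerSeries.mk (fun m => ∑ a ∈ Finset.range m,
            Lpow f r ^ (m - a) * PowerSeries.coeff a R)) := by ring
    _ = _ := by
      rw [this, map_mul]
      ring

end Pool.Agent.Helper8_CR.H68
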